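import Pool.Agent.Lib.MP_6ec4b3_lc.Interfaces

/-!
# Module SAT: satisfying assignments and sets without conflicts
-/

namespace Pool.Agent.Polya.H27

open Pool.Agent.Shoped30 Pool.Agent.Polya

/-- Literal number `a` of a clause. -/
def lit4 (C : Cl4) (a : ℕ) : Lit := [C.1, C.2.1, C.2.2.1, C.2.2.2].getD a (0, false)

theorem getD_flatMap {α β : Type*} (f : α → List β) (hf : ∀ x, (f x).length = 4) (d : β) :
    ∀ (L : List α) (u : ℕ) (h : u / 4 < L.length),
      (L.flatMap f).getD u d = (f (L[u / 4]'h)).getD (u % 4) d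
  | [], u, h => by simp at h
  | x :: L, u, h => by
    rw [List.flatMap_cons]
    by_cases hu : u < 4
    · rw [List.getD_append _ _ _ _ (by rw [hf]; exact hu)]
      have h1 : u / 4 = 0 := by omega
      have h2 : u % 4 = u := by omega
      simp only [h1, h2, List.getElem_cons_zero]
    · rw [List.getD_append_right _ _ _ _ (by rw [hf]; omega), hf]
      have h4 : u / 4 = (u - 4) / 4 + 1 := by omega
      have h5 : u % 4 = (u - 4) % 4 := by omega
      rw [getD_flatMap f hf d L (u - 4) (by rw [h4] at h; simpa using h), ← h5]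
      simp only [h4, List.getElem_cons_succ]

theorem nodes_getD (ψ : List Cl4) (u : ℕ) (h : u / 4 < ψ.length) :
    (nodes ψ).getD u (0, (0, false)) = (u / 4, lit4 (ψ[u / 4]'h) (u % 4)) := by
  unfold nodes
  rw [getD_flatMap _ (fun x => by simp) _ _ u (by simpa using h)]
  simp only [List.getElem_zip, List.getElem_range]
  have h4 : u % 4 < 4 := Nat.mod_lt _ (by norm_num)
  generalize u % 4 = a at h4
  interval_cases a <;> rfl

theorem sat_iff (α : ℕ → Bool) (C : Cl4) :
    Cl4.sat α C ↔ ∃ a < 4, lval α (lit4 C a) = true := by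
  constructor
  · rintro (h | h | h | h)
    · exact ⟨0, by norm_num, h⟩
    · exact ⟨1, by norm_num, h⟩
    · exact ⟨2, by norm_num, h⟩
    · exact ⟨3, by norm_num, h⟩
  · rintro ⟨a, ha, h⟩
    interval_cases a
    · exact Or.inl h
    · exact Or.inr (Or.inl h)
    · exact Or.inr (Or.inr (Or.inl h))
    · exact Or.inr (Or.inr (Or.inr h))

theorem conf_eq (ψ : List Cl4) (u v : ℕ) (hu : u / 4 < ψ.length) (hv : v / 4 < ψ.length) :
    conf ψ u v = false ↔ (u / 4 = v / 4 → u = v) ∧
      ((lit4 (ψ[u / 4]'hu) (u % 4)).1 = (lit4 (ψ[v / 4]'hv) (v % 4)).1 →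
        (lit4 (ψ[u / 4]'hu) (u % 4)).2 = (lit4 (ψ[v / 4]'hv) (v % 4)).2) := by
  unfold conf
  rw [nodes_getD ψ u hu, nodes_getD ψ v hv]
  generalize lit4 (ψ[u / 4]'hu) (u % 4) = p
  generalize lit4 (ψ[v / 4]'hv) (v % 4) = q
  obtain ⟨p1, p2⟩ := p
  obtain ⟨q1, q2⟩ := q
  by_cases h1 : u / 4 = v / 4 <;> by_cases h2 : u = v <;> by_cases h3 : p1 = q1 <;>
    cases p2 <;> cases q2 <;> simp [h1, h2, h3]

theorem sat : SAT := by
  classical
  intro ψ
  have hdiv : ∀ u : Fin (4 * ψ.length), u.val / 4 < ψ.length := fun u => by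
    have := u.2; omega
  constructor
  · rintro ⟨α, hα⟩
    have hc : ∀ j : Fin ψ.length, ∃ a < 4, lval α (lit4 (ψ[j.val]'j.2) a) = true := fun j =>
      (sat_iff α _).1 (hα _ (List.getElem_mem j.2))
    choose a ha hl using hc
    let e : Fin ψ.length → Fin (4 * ψ.length) := fun j =>
      ⟨4 * j.val + a j, by have := j.2; have := ha j; omega⟩
    have he : ∀ j, (e j).val / 4 = j.val := fun j => by
      have := ha j
      show (4 * j.val + a j) / 4 = j.val
      omega
    have hm : ∀ j, (e j).val % 4 = a j := fun j => by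
      have := ha j
      show (4 * j.val + a j) % 4 = a j
      omega
    have hinj : Function.Injective e := fun i j hij => by
      apply Fin.ext
      rw [← he i, ← he j, hij]
    refine ⟨Finset.univ.image e, ?_, by rw [Finset.card_image_of_injective _ hinj]; simp⟩
    intro u hu v hv
    simp only [Finset.mem_image, Finset.mem_univ, true_and] at hu hv
    obtain ⟨i, rfl⟩ := hu
    obtain ⟨j, rfl⟩ := hv
    rw [conf_eq ψ _ _ (hdiv _) (hdiv _)]
    refine ⟨fun h => ?_, fun h => ?_⟩
    · rw [he, he] at h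
      rw [Fin.ext h]
    · have h1 := hl i
      have h2 := hl j
      simp only [he, hm] at h ⊢
      unfold lval at h1 h2
      rw [beq_iff_eq] at h1 h2
      rw [← h1, ← h2, h]
  · intro hns I hI
    by_contra hcard
    rw [not_lt] at hcard
    apply hns
    -- the map `u ↦ u / 4` is injective on `I`
    have hinj : Set.InjOn (fun u : Fin (4 * ψ.length) => (⟨u.val / 4, hdiv u⟩ : Fin ψ.length))
        (I : Set (Fin (4 * ψ.length))) := by
      intro u hu v hv huv
      have h := (conf_eq ψ _ _ (hdiv u) (hdiv v)).1 (hI u hu v hv)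
      exact Fin.ext (h.1 (by simpa using huv))
    have himg : I.image (fun u : Fin (4 * ψ.length) => (⟨u.val / 4, hdiv u⟩ : Fin ψ.length)) =
        Finset.univ := by
      apply Finset.eq_univ_of_card
      rw [Finset.card_image_of_injOn hinj]
      apply le_antisymm _ (by simpa using hcard)
      rw [← Finset.card_image_of_injOn hinj]
      exact (Finset.card_le_univ _)
    -- the assignment
    refine ⟨fun x => decide (∃ u ∈ I, lit4 (ψ[u.val / 4]'(hdiv u)) (u.val % 4) = (x, true)), ?_⟩
    intro C hC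
    obtain ⟨j, hj, rfl⟩ := List.mem_iff_getElem.1 hC
    have hj' : (⟨j, hj⟩ : Fin ψ.length) ∈ I.image
        (fun u : Fin (4 * ψ.length) => (⟨u.val / 4, hdiv u⟩ : Fin ψ.length)) := by
      rw [himg]; exact Finset.mem_univ _
    rw [Finset.mem_image] at hj'
    obtain ⟨u, hu, huj⟩ := hj'
    have huj' : u.val / 4 = j := by simpa using huj
    rw [sat_iff]
    refine ⟨u.val % 4, Nat.mod_lt _ (by norm_num), ?_⟩
    have hlit : lit4 (ψ[j]'hj) (u.val % 4) = lit4 (ψ[u.val / 4]'(hdiv u)) (u.val % 4) := by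
      subst huj'
      rfl
    rw [hlit]
    generalize hp : lit4 (ψ[u.val / 4]'(hdiv u)) (u.val % 4) = p
    obtain ⟨x, b⟩ := p
    unfold lval
    rw [beq_iff_eq]
    cases b with
    | true =>
      simp only [decide_eq_true_eq]
      exact ⟨u, hu, hp⟩
    | false =>
      simp only [decide_eq_false_iff_not]
      rintro ⟨v, hv, hvx⟩
      have h := ((conf_eq ψ _ _ (hdiv u) (hdiv v)).1 (hI u hu v hv)).2
      rw [hp, hvx] at h
      exact absurd (h rfl) (by simp)

end Pool.Agent.Polya.H27
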